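import Mathlib

/-!
# Monochromatic packings of four-cycles in dense regular graphs

A regular graph of degree at least half its order with a two-colouring of its edges in which every
packing of monochromatic four-cycles misses many vertices: take a `p`-regular graph `R` without
four-cycles on a set `X` with `2 p ^ 2` vertices (points and lines `y = m x + c` over the field with
`p` elements), join `X` completely to an independent set `Y` with `2 p ^ 2 - p` vertices, and colour
the edges inside `X` with one colour and the edges between `X` and `Y` with another.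
-/

set_option autoImplicit false

namespace Pool.Agent.Results.MP_b9e70b_co.FourCycle

/-- `P` is a monochromatic `H`-packing in `G`: a family of pairwise vertex-disjoint subgraphs of `G`,
each isomorphic to `H` and each with all its edges of one colour. -/
def IsMonoPacking {V W : Type} {r : ℕ} (G : SimpleGraph V) (H : SimpleGraph W)
    (χ : G.edgeSet → Fin r) (P : Set G.Subgraph) : Prop :=
  (∀ S ∈ P, Nonempty (S.coe ≃g H) ∧ ∃ i : Fin r, ∀ e : G.edgeSet, e.val ∈ S.edgeSet → χ e = i) ∧
    P.PairwiseDisjoint (fun S => S.verts)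

/-- For the graph `H`, the number of colours `r` and the density `c` there is a constant `C` such
that every regular graph of degree at least `c n` on `n` vertices with every colouring of its edges
with `r` colours has a monochromatic `H`-packing missing at most `C` vertices. -/
def PackingProperty {W : Type} (H : SimpleGraph W) (r : ℕ) (c : ℝ) : Prop :=
  ∃ C : ℕ, ∀ (V : Type) [Fintype V] (G : SimpleGraph V) (d : ℕ) (χ : G.edgeSet → Fin r),
    (∀ v : V, (G.neighborSet v).ncard = d) → c * (Fintype.card V : ℝ) ≤ (d : ℝ) →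
    ∃ P : Set G.Subgraph, IsMonoPacking G H χ P ∧
      ((⋃ S ∈ P, S.verts)ᶜ : Set V).ncard ≤ C

/-- Points and lines. -/
abbrev X (p : ℕ) : Type := (ZMod p × ZMod p) ⊕ (ZMod p × ZMod p)

/-- The vertex set of the host graph. -/
abbrev V (p : ℕ) : Type := X p ⊕ Fin (2 * p ^ 2 - p)

/-- The incidence relation between points and lines. -/
def inc (p : ℕ) : X p → X p → Prop
  | Sum.inl a, Sum.inr m => a.2 = m.1 * a.1 + m.2
  | Sum.inr m, Sum.inl a => a.2 = m.1 * a.1 + m.2
  | Sum.inl _, Sum.inl _ => False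
  | Sum.inr _, Sum.inr _ => False

theorem inc_symm {p : ℕ} {x y : X p} (h : inc p x y) : inc p y x := by
  rcases x with x | x <;> rcases y with y | y <;> exact h

/-- The adjacency relation of the host graph. -/
def adj (p : ℕ) : V p → V p → Prop
  | Sum.inl x, Sum.inl y => inc p x y
  | Sum.inl _, Sum.inr _ => True
  | Sum.inr _, Sum.inl _ => True
  | Sum.inr _, Sum.inr _ => False

/-- The host graph. -/
def host (p : ℕ) : SimpleGraph (V p) where
  Adj := adj p
  symm := ⟨by
    intro x y h
    rcases x with x | x <;> rcases y with y | y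
    · exact inc_symm h
    · trivial
    · trivial
    · exact h⟩
  loopless := ⟨by
    intro x h
    rcases x with x | x
    · rcases x with x | x <;> exact h
    · exact h⟩

theorem no_four_cycle {p : ℕ} [Fact p.Prime] {x0 x1 x2 x3 : X p} (h01 : inc p x0 x1)
    (h12 : inc p x1 x2) (h23 : inc p x2 x3) (h30 : inc p x3 x0) (h02 : x0 ≠ x2) (h13 : x1 ≠ x3) :
    False := by
  have key : ∀ a b m n : ZMod p × ZMod p, a.2 = m.1 * a.1 + m.2 → b.2 = m.1 * b.1 + m.2 →
      a.2 = n.1 * a.1 + n.2 → b.2 = n.1 * b.1 + n.2 → a ≠ b → m ≠ n → False := by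
    intro a b m n h1 h2 h3 h4 hab hmn
    have h5 : (m.1 - n.1) * (a.1 - b.1) = 0 := by
      linear_combination (-1 : ZMod p) * h1 + h2 + h3 - h4
    rcases mul_eq_zero.1 h5 with h6 | h6
    · have h7 : m.1 = n.1 := sub_eq_zero.1 h6
      apply hmn
      refine Prod.ext h7 ?_
      have : m.2 = n.2 := by
        rw [h7] at h1
        linear_combination h3 - h1
      exact this
    · have h7 : a.1 = b.1 := sub_eq_zero.1 h6
      apply hab
      refine Prod.ext h7 ?_
      rw [h1, h2, h7]
  rcases x0 with x0 | x0 <;> rcases x1 with x1 | x1 <;> rcases x2 with x2 | x2 <;>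
    rcases x3 with x3 | x3 <;> simp only [inc] at h01 h12 h23 h30
  · exact key x0 x2 x1 x3 h01 h12 h30 h23 (fun h => h02 (by rw [h])) (fun h => h13 (by rw [h]))
  · exact key x1 x3 x0 x2 h01 h30 h12 h23 (fun h => h13 (by rw [h])) (fun h => h02 (by rw [h]))

theorem ncard_inc {p : ℕ} [Fact p.Prime] (x : X p) : {y | inc p x y}.ncard = p := by
  rcases x with a | m
  · have h : {y | inc p (Sum.inl a) y}
        = (fun m : ZMod p => (Sum.inr (m, a.2 - m * a.1) : X p)) '' Set.univ := by
      ext y
      rcases y with y | y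
      · simp [inc]
      · simp only [inc, Set.mem_ofPred_eq, Set.image_univ, Set.mem_range, Sum.inr.injEq]
        constructor
        · intro h
          refine ⟨y.1, Prod.ext rfl ?_⟩
          simp only [h]
          ring
        · rintro ⟨m, rfl⟩
          simp
    rw [h, Set.ncard_image_of_injective, Set.ncard_univ, Nat.card_eq_fintype_card, ZMod.card]
    intro m n hmn
    simp only [Sum.inr.injEq, Prod.mk.injEq] at hmn
    exact hmn.1
  · have h : {y | inc p (Sum.inr m) y}
        = (fun a : ZMod p => (Sum.inl (a, m.1 * a + m.2) : X p)) '' Set.univ := by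
      ext y
      rcases y with y | y
      · simp only [inc, Set.mem_ofPred_eq, Set.image_univ, Set.mem_range, Sum.inl.injEq]
        constructor
        · intro h
          exact ⟨y.1, Prod.ext rfl h.symm⟩
        · rintro ⟨a, rfl⟩
          simp
      · simp [inc]
    rw [h, Set.ncard_image_of_injective, Set.ncard_univ, Nat.card_eq_fintype_card, ZMod.card]
    intro m n hmn
    simp only [Sum.inl.injEq, Prod.mk.injEq] at hmn
    exact hmn.1

theorem card_X (p : ℕ) [Fact p.Prime] : Fintype.card (X p) = 2 * p ^ 2 := by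
  simp only [Fintype.card_sum, Fintype.card_prod, ZMod.card]
  ring

theorem le_sq (p : ℕ) : p ≤ 2 * p ^ 2 := by nlinarith [Nat.zero_le p, sq_nonneg (p : ℤ)]

theorem host_regular {p : ℕ} [Fact p.Prime] (v : V p) :
    ((host p).neighborSet v).ncard = 2 * p ^ 2 := by
  rcases v with x | y
  · have h : (host p).neighborSet (Sum.inl x)
        = Sum.inl '' {y | inc p x y} ∪ Sum.inr '' Set.univ := by
      ext v
      rcases v with v | v
      · simp [SimpleGraph.mem_neighborSet, host, adj]
      · simp [SimpleGraph.mem_neighborSet, host, adj]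
    rw [h, Set.ncard_union_eq, Set.ncard_image_of_injective _ Sum.inl_injective,
      Set.ncard_image_of_injective _ Sum.inr_injective, ncard_inc, Set.ncard_univ,
      Nat.card_eq_fintype_card, Fintype.card_fin]
    · have := le_sq p
      omega
    · rw [Set.disjoint_left]
      rintro _ ⟨a, -, rfl⟩ ⟨b, -, hb⟩
      exact absurd hb (by simp)
  · have h : (host p).neighborSet (Sum.inr y) = Sum.inl '' Set.univ := by
      ext v
      rcases v with v | v
      · simp [SimpleGraph.mem_neighborSet, host, adj]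
      · simp [SimpleGraph.mem_neighborSet, host, adj]
    rw [h, Set.ncard_image_of_injective _ Sum.inl_injective, Set.ncard_univ,
      Nat.card_eq_fintype_card, card_X]

/-- An edge is blue if it joins `X` to `Y`. -/
def Blue (p : ℕ) (e : Sym2 (V p)) : Prop := ∃ x y, e = s(Sum.inl x, Sum.inr y)

/-- The colouring: blue edges get colour `1`, all other edges colour `0`. -/
noncomputable def col (p r : ℕ) (hr : 2 ≤ r) (e : (host p).edgeSet) : Fin r :=
  open Classical in if Blue p e.val then ⟨1, by omega⟩ else ⟨0, by omega⟩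

theorem blue_of_inl_inr {p : ℕ} (x : X p) (y : Fin (2 * p ^ 2 - p)) :
    Blue p s(Sum.inl x, Sum.inr y) := ⟨x, y, rfl⟩

theorem blue_of_inr_inl {p : ℕ} (x : X p) (y : Fin (2 * p ^ 2 - p)) :
    Blue p s(Sum.inr y, Sum.inl x) := ⟨x, y, Sym2.eq_swap⟩

theorem not_blue_inl_inl {p : ℕ} (x x' : X p) : ¬ Blue p s(Sum.inl x, Sum.inl x') := by
  rintro ⟨a, b, h⟩
  rw [Sym2.eq_iff] at h
  rcases h with ⟨_, h⟩ | ⟨h, _⟩
  · exact absurd h (by simp)
  · exact absurd h (by simp)

/-- Four distinct vertices forming a four-cycle all of whose edges are blue, or all not blue: two of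
its vertices lie in `X` and two in `Y`. -/
theorem cycle_balanced {p : ℕ} [Fact p.Prime] {v0 v1 v2 v3 : V p}
    (h01 : (host p).Adj v0 v1) (h12 : (host p).Adj v1 v2) (h23 : (host p).Adj v2 v3)
    (h30 : (host p).Adj v3 v0) (h02 : v0 ≠ v2) (h13 : v1 ≠ v3)
    (b1 : Blue p s(v0, v1) ↔ Blue p s(v1, v2)) (b2 : Blue p s(v1, v2) ↔ Blue p s(v2, v3))
    (b3 : Blue p s(v2, v3) ↔ Blue p s(v3, v0)) :
    (({v0, v1, v2, v3} : Set (V p)) ∩ Set.range Sum.inl).ncard ≤
      (({v0, v1, v2, v3} : Set (V p)) ∩ Set.range Sum.inr).ncard := by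
  have hab : ∀ (a b c d : V p), a ≠ c → b ≠ d → (a ∈ Set.range (Sum.inl : X p → V p)) →
      (c ∈ Set.range (Sum.inl : X p → V p)) →
      (b ∈ Set.range (Sum.inr : Fin (2 * p ^ 2 - p) → V p)) →
      (d ∈ Set.range (Sum.inr : Fin (2 * p ^ 2 - p) → V p)) →
      (({a, b, c, d} : Set (V p)) ∩ Set.range Sum.inl).ncard ≤
      (({a, b, c, d} : Set (V p)) ∩ Set.range Sum.inr).ncard := by
    rintro a b c d hac hbd ⟨a, rfl⟩ ⟨c, rfl⟩ ⟨b, rfl⟩ ⟨d, rfl⟩
    have h1 : (({Sum.inl a, Sum.inr b, Sum.inl c, Sum.inr d} : Set (V p)) ∩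
        Set.range Sum.inl) ⊆ {Sum.inl a, Sum.inl c} := by
      rintro _ ⟨hx, ⟨x, rfl⟩⟩
      simpa using hx
    have h2 : ({Sum.inr b, Sum.inr d} : Set (V p)) ⊆
        (({Sum.inl a, Sum.inr b, Sum.inl c, Sum.inr d} : Set (V p)) ∩ Set.range Sum.inr) := by
      intro x hx
      rcases hx with rfl | rfl
      · simp
      · simp
    calc _ ≤ ({Sum.inl a, Sum.inl c} : Set (V p)).ncard := Set.ncard_le_ncard h1 (Set.toFinite _)
      _ ≤ 2 := by
        rw [Set.ncard_pair hac]
      _ = ({Sum.inr b, Sum.inr d} : Set (V p)).ncard := by rw [Set.ncard_pair hbd]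
      _ ≤ _ := Set.ncard_le_ncard h2 (Set.toFinite _)
  rcases v0 with v0 | v0 <;> rcases v1 with v1 | v1 <;> rcases v2 with v2 | v2 <;>
    rcases v3 with v3 | v3 <;> simp only [host, adj] at h01 h12 h23 h30
  · exact absurd (no_four_cycle h01 h12 h23 h30 (fun h => h02 (by rw [h]))
      (fun h => h13 (by rw [h]))) id
  · exact absurd (b2.2 (blue_of_inl_inr _ _)) (not_blue_inl_inl _ _)
  · exact absurd (b1.2 (blue_of_inl_inr _ _)) (not_blue_inl_inl _ _)
  · exact absurd (b2.1 (blue_of_inr_inl _ _)) (not_blue_inl_inl _ _)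
  · exact hab _ _ _ _ h02 h13 ⟨_, rfl⟩ ⟨_, rfl⟩ ⟨_, rfl⟩ ⟨_, rfl⟩
  · exact absurd (b1.1 (blue_of_inr_inl _ _)) (not_blue_inl_inl _ _)
  · have h : ({Sum.inr v0, Sum.inl v1, Sum.inr v2, Sum.inl v3} : Set (V p))
        = {Sum.inl v1, Sum.inr v0, Sum.inl v3, Sum.inr v2} := by
      ext x
      simp only [Set.mem_insert_iff, Set.mem_singleton_iff]
      tauto
    rw [h]
    exact hab _ _ _ _ h13 h02 ⟨_, rfl⟩ ⟨_, rfl⟩ ⟨_, rfl⟩ ⟨_, rfl⟩

/-- In every member of a monochromatic packing of four-cycles at most half of the vertices lie in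
`X`. -/
theorem member_balanced {p r : ℕ} [Fact p.Prime] (hr : 2 ≤ r) (S : (host p).Subgraph)
    (hS : Nonempty (S.coe ≃g SimpleGraph.cycleGraph 4))
    (hm : ∃ i : Fin r, ∀ e : (host p).edgeSet, e.val ∈ S.edgeSet → col p r hr e = i) :
    (S.verts ∩ Set.range Sum.inl).ncard ≤ (S.verts ∩ Set.range Sum.inr).ncard := by
  obtain ⟨φ⟩ := hS
  obtain ⟨i, hi⟩ := hm
  have hadj : ∀ a b : Fin 4, (SimpleGraph.cycleGraph 4).Adj a b →
      S.Adj (φ.symm a).val (φ.symm b).val := by
    intro a b hab
    have h := φ.symm.map_adj_iff.2 hab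
    exact h
  have hblue : ∀ a b c d : Fin 4, (SimpleGraph.cycleGraph 4).Adj a b →
      (SimpleGraph.cycleGraph 4).Adj c d →
      (Blue p s((φ.symm a).val, (φ.symm b).val) ↔ Blue p s((φ.symm c).val, (φ.symm d).val)) := by
    intro a b c d hab hcd
    have h1 := hi ⟨s((φ.symm a).val, (φ.symm b).val), S.adj_sub (hadj a b hab)⟩ (hadj a b hab)
    have h2 := hi ⟨s((φ.symm c).val, (φ.symm d).val), S.adj_sub (hadj c d hcd)⟩ (hadj c d hcd)
    rw [← h2] at h1
    unfold col at h1
    simp only at h1
    by_cases ha : Blue p s((φ.symm a).val, (φ.symm b).val) <;>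
      by_cases hc : Blue p s((φ.symm c).val, (φ.symm d).val)
    · exact ⟨fun _ => hc, fun _ => ha⟩
    · rw [if_pos ha, if_neg hc] at h1
      simp at h1
    · rw [if_neg ha, if_pos hc] at h1
      simp at h1
    · exact ⟨fun h => absurd h ha, fun h => absurd h hc⟩
  have hverts : S.verts = {(φ.symm 0).val, (φ.symm 1).val, (φ.symm 2).val, (φ.symm 3).val} := by
    ext v
    constructor
    · intro hv
      have h : φ.symm (φ ⟨v, hv⟩) = ⟨v, hv⟩ := φ.symm_apply_apply _
      have hval : (φ.symm (φ ⟨v, hv⟩)).val = v := by rw [h]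
      have h4 : ∀ j : Fin 4, j = 0 ∨ j = 1 ∨ j = 2 ∨ j = 3 := by decide
      simp only [Set.mem_insert_iff, Set.mem_singleton_iff]
      rcases h4 (φ ⟨v, hv⟩) with h5 | h5 | h5 | h5 <;> rw [h5] at hval <;> simp [hval]
    · intro hv
      simp only [Set.mem_insert_iff, Set.mem_singleton_iff] at hv
      rcases hv with rfl | rfl | rfl | rfl
      · exact (φ.symm 0).2
      · exact (φ.symm 1).2
      · exact (φ.symm 2).2
      · exact (φ.symm 3).2
  have hne : ∀ a b : Fin 4, a ≠ b → (φ.symm a).val ≠ (φ.symm b).val := by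
    intro a b hab h
    exact hab (φ.symm.injective (Subtype.ext h))
  have a01 : (SimpleGraph.cycleGraph 4).Adj 0 1 := by decide
  have a12 : (SimpleGraph.cycleGraph 4).Adj 1 2 := by decide
  have a23 : (SimpleGraph.cycleGraph 4).Adj 2 3 := by decide
  have a30 : (SimpleGraph.cycleGraph 4).Adj 3 0 := by decide
  rw [hverts]
  exact cycle_balanced (S.adj_sub (hadj _ _ a01)) (S.adj_sub (hadj _ _ a12))
    (S.adj_sub (hadj _ _ a23)) (S.adj_sub (hadj _ _ a30)) (hne _ _ (by decide))
    (hne _ _ (by decide)) (hblue _ _ _ _ a01 a12) (hblue _ _ _ _ a12 a23)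
    (hblue _ _ _ _ a23 a30)

theorem uncovered {p r : ℕ} [Fact p.Prime] (hr : 2 ≤ r) (P : Set (host p).Subgraph)
    (hP : IsMonoPacking (host p) (SimpleGraph.cycleGraph 4) (col p r hr) P) :
    p ≤ ((⋃ S ∈ P, S.verts)ᶜ : Set (V p)).ncard := by
  classical
  have hfin : P.Finite := Set.toFinite P
  set Q : Finset (host p).Subgraph := hfin.toFinset with hQ
  have hmem : ∀ S, S ∈ Q ↔ S ∈ P := fun S => hfin.mem_toFinset
  set A : (host p).Subgraph → Finset (V p) :=
    fun S => (S.verts ∩ Set.range Sum.inl).toFinset with hA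
  set B : (host p).Subgraph → Finset (V p) :=
    fun S => (S.verts ∩ Set.range Sum.inr).toFinset with hB
  have hAcard : ∀ S, (A S).card = (S.verts ∩ Set.range Sum.inl).ncard := fun S =>
    (Set.ncard_eq_toFinset_card' _).symm
  have hBcard : ∀ S, (B S).card = (S.verts ∩ Set.range Sum.inr).ncard := fun S =>
    (Set.ncard_eq_toFinset_card' _).symm
  have hAB : ∀ S ∈ Q, (A S).card ≤ (B S).card := by
    intro S hS
    rw [hAcard, hBcard]
    exact member_balanced hr S (hP.1 S ((hmem S).1 hS)).1 (hP.1 S ((hmem S).1 hS)).2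
  have hdA : (Q : Set (host p).Subgraph).PairwiseDisjoint A := by
    intro S hS T hT hne
    have h := hP.2 ((hmem S).1 hS) ((hmem T).1 hT) hne
    change Disjoint (A S) (A T)
    rw [Finset.disjoint_left]
    intro v hv hv'
    rw [Set.mem_toFinset] at hv hv'
    exact Set.disjoint_left.1 h hv.1 hv'.1
  have hdB : (Q : Set (host p).Subgraph).PairwiseDisjoint B := by
    intro S hS T hT hne
    have h := hP.2 ((hmem S).1 hS) ((hmem T).1 hT) hne
    change Disjoint (B S) (B T)
    rw [Finset.disjoint_left]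
    intro v hv hv'
    rw [Set.mem_toFinset] at hv hv'
    exact Set.disjoint_left.1 h hv.1 hv'.1
  have hle : (Q.biUnion A).card ≤ (Q.biUnion B).card := by
    rw [Finset.card_biUnion hdA, Finset.card_biUnion hdB]
    exact Finset.sum_le_sum hAB
  have hBle : (Q.biUnion B).card ≤ 2 * p ^ 2 - p := by
    have hsub : Q.biUnion B ⊆ (Finset.univ : Finset (Fin (2 * p ^ 2 - p))).image Sum.inr := by
      intro v hv
      rw [Finset.mem_biUnion] at hv
      obtain ⟨S, -, hv⟩ := hv
      rw [Set.mem_toFinset] at hv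
      obtain ⟨y, rfl⟩ := hv.2
      simp
    refine (Finset.card_le_card hsub).trans ?_
    refine Finset.card_image_le.trans ?_
    simp
  have hX : ((Finset.univ : Finset (X p)).image (Sum.inl : X p → V p)).card = 2 * p ^ 2 := by
    rw [Finset.card_image_of_injective _ Sum.inl_injective, Finset.card_univ, card_X]
  have hsub : (((Finset.univ : Finset (X p)).image (Sum.inl : X p → V p)) \ Q.biUnion A :
      Finset (V p)) ⊆ ((⋃ S ∈ P, S.verts)ᶜ : Set (V p)).toFinset := by
    intro v hv
    rw [Finset.mem_sdiff] at hv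
    rw [Set.mem_toFinset]
    intro hv2
    simp only [Set.mem_iUnion] at hv2
    obtain ⟨S, hS, hvS⟩ := hv2
    apply hv.2
    rw [Finset.mem_biUnion]
    refine ⟨S, (hmem S).2 hS, ?_⟩
    rw [Set.mem_toFinset]
    refine ⟨hvS, ?_⟩
    obtain ⟨x, -, rfl⟩ := Finset.mem_image.1 hv.1
    exact ⟨x, rfl⟩
  rw [Set.ncard_eq_toFinset_card']
  have h1 := Finset.card_le_card hsub
  have h2 := Finset.le_card_sdiff (Q.biUnion A)
    ((Finset.univ : Finset (X p)).image (Sum.inl : X p → V p))
  have h3 := le_sq p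
  omega

theorem not_property (r : ℕ) (hr : 2 ≤ r) (c : ℝ) (hc : c ≤ 1 / 2) :
    ¬ PackingProperty (SimpleGraph.cycleGraph 4) r c := by
  rintro ⟨C, hC⟩
  obtain ⟨p, hpC, hp⟩ := Nat.exists_infinite_primes (C + 1)
  have : Fact p.Prime := ⟨hp⟩
  obtain ⟨P, hP, hle⟩ := hC (V p) (host p) (2 * p ^ 2) (col p r hr) host_regular (by
    have h1 : (Fintype.card (V p) : ℝ) ≤ 4 * (p : ℝ) ^ 2 := by
      have : Fintype.card (V p) ≤ 4 * p ^ 2 := by
        rw [Fintype.card_sum, card_X, Fintype.card_fin]
        omega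
      exact_mod_cast this
    have h2 : (0 : ℝ) ≤ (Fintype.card (V p) : ℝ) := Nat.cast_nonneg _
    push_cast
    nlinarith)
  have := uncovered hr P hP
  omega

/-- For the four-cycle, every number `r ≥ 2` of colours and every density `c` with `0 < c ≤ 1/2`
no constant `C` works. In particular the packing statement for all bipartite graphs `H`, all `r ≥ 2`
and all `0 < c < 1` is false. -/
theorem result :
    (∀ r : ℕ, 2 ≤ r → ∀ c : ℝ, 0 < c → c ≤ 1 / 2 →
      ¬ PackingProperty (SimpleGraph.cycleGraph 4) r c) ∧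
    ¬ (∀ (k : ℕ) (H : SimpleGraph (Fin k)), H.Colorable 2 → ∀ r : ℕ, 2 ≤ r →
      ∀ c : ℝ, 0 < c → c < 1 → PackingProperty H r c) := by
  refine ⟨fun r hr c _ hc => not_property r hr c hc, ?_⟩
  intro h
  refine not_property 2 (le_refl _) (1 / 2) (le_refl _)
    (h 4 (SimpleGraph.cycleGraph 4) ?_ 2 (le_refl _) (1 / 2) (by norm_num) (by norm_num))
  refine ⟨SimpleGraph.Coloring.mk (fun i : Fin 4 => (⟨i.val % 2, by omega⟩ : Fin 2)) ?_⟩
  decide

end Pool.Agent.Results.MP_b9e70b_co.FourCycle
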